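import Pool.Agent.helper85.AQ.SpecB

/-!
# Project aq (MP_3703a7_ag), row BT1: isomorphisms of curves
-/

set_option autoImplicit false

namespace Pool.Agent.AQ

open Polynomial Pool.Agent.HC Pool.Agent.HC.SJ Pool.Agent.SJ Pool.Agent.GJ Pool.Agent.TK Pool.Agent.CM
open Pool.Agent.TQJ Pool.Agent.TQG
open Pool.Agent.FJ (VT Om chiO rf rs IsFrobO)
open Pool.Agent.TD (zK DvK bC mK IsPhiK Stab)
open scoped TensorProduct NumberField

noncomputable section

section gen
open nonZeroDivisors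

local instance BT1_pair {R S : Type} [CommRing R] [CommRing S] (f : R ≃+* S) :
    RingHomInvPair (f : R →+* S) f.symm :=
  RingHomInvPair.of_ringEquiv f

theorem BT1_coe {R S : Type} [CommRing R] [IsDomain R] [CommRing S] [IsDomain S] (e : R ≃+* S) (I : Ideal R) :
    FractionalIdeal.ringEquivOfRingEquiv (FractionRing R) (FractionRing S) e
      (I : FractionalIdeal R⁰ (FractionRing R)) =
      ((I.map e : Ideal S) : FractionalIdeal S⁰ (FractionRing S)) := by
  ext x
  rw [FractionalIdeal.mem_coeIdeal]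
  rw [← FractionalIdeal.mem_coe]
  have h0 : ((FractionalIdeal.ringEquivOfRingEquiv (FractionRing R) (FractionRing S) e
      (I : FractionalIdeal R⁰ (FractionRing R)) : FractionalIdeal S⁰ (FractionRing S)) :
        Submodule S (FractionRing S)) =
      Submodule.map (IsFractionRing.semilinearEquivOfRingEquiv _ _ e).toLinearMap
        (I : FractionalIdeal R⁰ (FractionRing R)).val := rfl
  rw [h0, Submodule.mem_map]
  constructor
  · rintro ⟨y, hy, rfl⟩
    have hy' : y ∈ (I : FractionalIdeal R⁰ (FractionRing R)) := hy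
    rw [FractionalIdeal.mem_coeIdeal] at hy'
    obtain ⟨i, hi, rfl⟩ := hy'
    refine ⟨e i, Ideal.mem_map_of_mem e hi, ?_⟩
    exact (IsFractionRing.ringEquivOfRingEquiv_algebraMap e i).symm
  · rintro ⟨z, hz, rfl⟩
    obtain ⟨i, hi, rfl⟩ := (Ideal.mem_map_of_equiv e z).1 hz
    refine ⟨algebraMap R (FractionRing R) i, ?_, ?_⟩
    · have : algebraMap R (FractionRing R) i ∈ (I : FractionalIdeal R⁰ (FractionRing R)) := by
        rw [FractionalIdeal.mem_coeIdeal]
        exact ⟨i, hi, rfl⟩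
      exact this
    · exact IsFractionRing.ringEquivOfRingEquiv_algebraMap e i

theorem BT1_mk0 {R S : Type} [CommRing R] [IsDedekindDomain R] [CommRing S] [IsDedekindDomain S] (e : R ≃+* S)
    (I : (Ideal R)⁰) (J : (Ideal S)⁰) (h : (J : Ideal S) = (I : Ideal R).map e) :
    ClassGroup.mulEquiv e (ClassGroup.mk0 I) = ClassGroup.mk0 J := by
  apply (ClassGroup.equiv (R := S) (FractionRing S)).injective
  rw [ClassGroup.equiv_mk0]
  have h1 : ClassGroup.equiv (R := S) (FractionRing S)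
      (ClassGroup.mulEquiv e (ClassGroup.mk0 I)) =
      QuotientGroup.congr (toPrincipalIdeal R (FractionRing R)).range
        (toPrincipalIdeal S (FractionRing S)).range
        (Units.mapEquiv (FractionalIdeal.ringEquivOfRingEquiv (FractionRing R) (FractionRing S) e))
        (FractionalIdeal.map_ringEquivOfRingEquiv_toPrincipalIdeal e)
        (ClassGroup.equiv (R := R) (FractionRing R) (ClassGroup.mk0 I)) := by
    rw [ClassGroup.mulEquiv, MulEquiv.trans_apply, MulEquiv.trans_apply,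
      MulEquiv.apply_symm_apply]
  rw [h1, ClassGroup.equiv_mk0]
  have h2 : Units.mapEquiv
      (FractionalIdeal.ringEquivOfRingEquiv (FractionRing R) (FractionRing S) e).toMulEquiv
      (FractionalIdeal.mk0 (FractionRing R) I) = FractionalIdeal.mk0 (FractionRing S) J := by
    apply Units.ext
    change FractionalIdeal.ringEquivOfRingEquiv (FractionRing R) (FractionRing S) e
      ((I : Ideal R) : FractionalIdeal R⁰ (FractionRing R)) =
      ((J : Ideal S) : FractionalIdeal S⁰ (FractionRing S))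
    rw [BT1_coe, h]
  rw [← h2]
  rfl

end gen

/-- a ring isomorphism which is compatible with the evaluations at two points maps the class of the first point to the class of the second -/
theorem BT1_cl {K K' : Type} [Field K] [Field K'] {l n : ℕ} [Fact l.Prime] {μ : Fin (n + 1) → ℕ}
    {a : Fin (n + 1) → K} {a' : Fin (n + 1) → K'} [Good K l μ a] [Good K' l μ a']
    [IsDedekindDomain (CR K l μ a)] [IsDedekindDomain (CR K' l μ a')] (σ : K ≃+* K')
    (E : CR K l μ a ≃+* CR K' l μ a') (q : Pc K l μ a) (q' : Pc K' l μ a')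
    (hE : ∀ z, ev q' (E z) = σ (ev q z)) : ClassGroup.mulEquiv E (cl q) = cl q' := by
  unfold cl
  refine BT1_mk0 E _ _ ?_
  change ptI q' = (ptI q).map E
  ext z
  rw [Ideal.mem_map_of_equiv]
  constructor
  · intro hz
    have hz' : ev q' z = 0 := hz
    refine ⟨E.symm z, ?_, RingEquiv.apply_symm_apply _ z⟩
    change ev q _ = 0
    have h1 := hE (E.symm z)
    rw [RingEquiv.apply_symm_apply, hz'] at h1
    exact (map_eq_zero_iff σ σ.injective).1 h1.symm
  · rintro ⟨w, hw, rfl⟩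
    have hw' : ev q w = 0 := hw
    change ev q' _ = 0
    rw [hE, hw', map_zero]

section hom
variable {K K' : Type} [Field K] [Field K'] {l n : ℕ} {μ : Fin (n + 1) → ℕ}
  {a : Fin (n + 1) → K} {a' : Fin (n + 1) → K'} {σ : K ≃+* K'} {c e d : K'} {π : Equiv.Perm (Fin (n + 1))}

theorem BT1_dne (hl : l ≠ 0) (h : IsQ l μ a a' σ c e d π) : d ≠ 0 := by
  intro h0
  have h1 := h.rel
  rw [h0, zero_pow hl] at h1
  exact pow_ne_zero _ h.ne h1.symm

/-- the polynomial `f` at `c⁻¹ (X - e)` -/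
theorem BT1_poly {B : Type} [CommRing B] [Algebra K' B] (h : IsQ l μ a a' σ c e d π) (X : B) :
    ∏ j, (algebraMap K' B c⁻¹ * (X - algebraMap K' B e) - algebraMap K' B (σ (a j))) ^ μ j =
      algebraMap K' B (c⁻¹ ^ ∑ j, μ j) * ∏ j, (X - algebraMap K' B (a' j)) ^ μ j := by
  have h1 : ∀ j, (algebraMap K' B c⁻¹ * (X - algebraMap K' B e) - algebraMap K' B (σ (a j))) ^ μ j =
      algebraMap K' B c⁻¹ ^ μ j * (X - algebraMap K' B (a' (π j))) ^ μ (π j) := by
    intro j
    rw [h.wt, ← mul_pow, ← h.pt j]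
    refine congrArg (fun t => t ^ μ j) ?_
    have h2 : algebraMap K' B (σ (a j)) = algebraMap K' B c⁻¹ * algebraMap K' B (c * σ (a j)) := by
      rw [← map_mul, inv_mul_cancel_left₀ h.ne]
    rw [map_add, h2]
    ring
  rw [Finset.prod_congr rfl fun j _ => h1 j, Finset.prod_mul_distrib, Finset.prod_pow_eq_pow_sum, map_pow]
  refine congrArg (fun t => _ * t) ?_
  exact Equiv.prod_comp π (fun j => (X - algebraMap K' B (a' j)) ^ μ j)

theorem BT1_relc (h : IsQ l μ a a' σ c e d π) : d⁻¹ ^ l = c⁻¹ ^ ∑ j, μ j := by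
  rw [inv_pow, inv_pow, h.rel]

/-- the homomorphism `x ↦ c⁻¹ (x - e)`, `y ↦ d⁻¹ y` -/
def BT1_hom (hl : l ≠ 0) (h : IsQ l μ a a' σ c e d π) : CR K l μ a →+* CR K' l μ a' :=
  CR.lift ((algebraMap K' (CR K' l μ a')).comp (σ : K →+* K'))
    (algebraMap K' (CR K' l μ a') c⁻¹ * (CR.x - algebraMap K' (CR K' l μ a') e))
    (algebraMap K' (CR K' l μ a') d⁻¹ * CR.y)
    (by
      rw [CR.eval₂_fp (a := a) ((algebraMap K' (CR K' l μ a')).comp (σ : K →+* K'))
          (fun j => algebraMap K' (CR K' l μ a') (σ (a j))) (fun _ => rfl),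
        BT1_poly h, mul_pow, ← map_pow, BT1_relc h, CR.rel, CR.pol_fp])
    (by
      rw [CR.eval₂_fp (a := a) ((algebraMap K' (CR K' l μ a')).comp (σ : K →+* K'))
          (fun j => algebraMap K' (CR K' l μ a') (σ (a j))) (fun _ => rfl),
        BT1_poly h, ← CR.pol_fp]
      refine IsUnit.mul ?_ CR.unit_f
      exact (IsUnit.mk0 _ (pow_ne_zero _ (inv_ne_zero h.ne))).map _)

theorem BT1_hom_x (hl : l ≠ 0) (h : IsQ l μ a a' σ c e d π) : BT1_hom hl h (CR.x : CR K l μ a) =
    algebraMap K' (CR K' l μ a') c⁻¹ * (CR.x - algebraMap K' (CR K' l μ a') e) := CR.lift_x _ _ _ _ _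

theorem BT1_hom_y (hl : l ≠ 0) (h : IsQ l μ a a' σ c e d π) : BT1_hom hl h (CR.y : CR K l μ a) =
    algebraMap K' (CR K' l μ a') d⁻¹ * CR.y := CR.lift_y _ _ _ _ _

theorem BT1_hom_C (hl : l ≠ 0) (h : IsQ l μ a a' σ c e d π) (k : K) :
    BT1_hom hl h (algebraMap K (CR K l μ a) k) = algebraMap K' (CR K' l μ a') (σ k) := CR.lift_C _ _ _ _ _ _

theorem BT1_inv (h : IsQ l μ a a' σ c e d π) :
    IsQ l μ a' a σ.symm (σ.symm c⁻¹) (-σ.symm (c⁻¹ * e)) (σ.symm d⁻¹) π.symm := by
  refine ⟨?_, ?_, ?_, ?_⟩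
  · exact (map_ne_zero_iff _ σ.symm.injective).2 (inv_ne_zero h.ne)
  · intro j
    have h1 := h.pt (π.symm j)
    rw [Equiv.apply_symm_apply] at h1
    rw [← h1, ← map_mul, ← sub_eq_add_neg, ← map_sub]
    have h2 : c⁻¹ * (c * σ (a (π.symm j)) + e) - c⁻¹ * e = σ (a (π.symm j)) := by
      have := h.ne
      field_simp
      ring
    rw [h2, RingEquiv.symm_apply_apply]
  · intro j
    have h1 := h.wt (π.symm j)
    rw [Equiv.apply_symm_apply] at h1
    exact h1.symm
  · rw [← map_pow, ← map_pow, inv_pow, inv_pow, h.rel]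

theorem BT1_left (hl : l ≠ 0) (h : IsQ l μ a a' σ c e d π) :
    (BT1_hom hl (BT1_inv h)).comp (BT1_hom hl h) = RingHom.id _ := by
  have hd := BT1_dne hl h
  have hc := h.ne
  apply CR.hom_ext
  · intro k
    rw [RingHom.comp_apply, BT1_hom_C, BT1_hom_C, RingEquiv.symm_apply_apply, RingHom.id_apply]
  · rw [RingHom.comp_apply, BT1_hom_x, map_mul, map_sub, BT1_hom_C, BT1_hom_C, BT1_hom_x, RingHom.id_apply, map_neg]
    have h1 : algebraMap K (CR K l μ a) (σ.symm c⁻¹) * algebraMap K (CR K l μ a) (σ.symm c⁻¹)⁻¹ = 1 := by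
      rw [← map_mul, mul_inv_cancel₀ (BT1_inv h).ne, map_one]
    have h2 : algebraMap K (CR K l μ a) (σ.symm c⁻¹) * algebraMap K (CR K l μ a) (σ.symm e) =
        algebraMap K (CR K l μ a) (σ.symm (c⁻¹ * e)) := by
      rw [← map_mul, ← map_mul]
    linear_combination (CR.x + algebraMap K (CR K l μ a) (σ.symm (c⁻¹ * e))) * h1 - h2
  · rw [RingHom.comp_apply, BT1_hom_y, map_mul, BT1_hom_C, BT1_hom_y, RingHom.id_apply, ← mul_assoc, ← map_mul,
      mul_inv_cancel₀ ((map_ne_zero_iff _ σ.symm.injective).2 (inv_ne_zero hd)), map_one, one_mul]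

theorem BT1_right (hl : l ≠ 0) (h : IsQ l μ a a' σ c e d π) :
    (BT1_hom hl h).comp (BT1_hom hl (BT1_inv h)) = RingHom.id _ := by
  have hd := BT1_dne hl h
  have hc := h.ne
  apply CR.hom_ext
  · intro k
    rw [RingHom.comp_apply, BT1_hom_C, BT1_hom_C, RingEquiv.apply_symm_apply, RingHom.id_apply]
  · rw [RingHom.comp_apply, BT1_hom_x, map_mul, map_sub, BT1_hom_C, BT1_hom_C, BT1_hom_x, RingHom.id_apply, map_neg,
      map_inv₀, RingEquiv.apply_symm_apply, RingEquiv.apply_symm_apply, inv_inv, map_neg, map_mul]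
    have h1 : algebraMap K' (CR K' l μ a') c * algebraMap K' (CR K' l μ a') c⁻¹ = 1 := by
      rw [← map_mul, mul_inv_cancel₀ hc, map_one]
    linear_combination (CR.x : CR K' l μ a') * h1
  · rw [RingHom.comp_apply, BT1_hom_y, map_mul, BT1_hom_C, BT1_hom_y, RingHom.id_apply, map_inv₀,
      RingEquiv.apply_symm_apply, inv_inv, ← mul_assoc, ← map_mul, mul_inv_cancel₀ hd, map_one, one_mul]

/-- the isomorphism -/
def BT1_iso (hl : l ≠ 0) (h : IsQ l μ a a' σ c e d π) : CR K l μ a ≃+* CR K' l μ a' :=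
  RingEquiv.ofRingHom (BT1_hom hl h) (BT1_hom hl (BT1_inv h)) (BT1_right hl h) (BT1_left hl h)

end hom

theorem BT1 (h1 : KA1_stmt) : BT1_stmt := by
  intro K K' _ _ _ _ l n _ _ _ μ a a' _ _ _ _ σ c e d π h
  have hl : l ≠ 0 := (Fact.out (p := l.Prime)).ne_zero
  have hd := BT1_dne hl h
  have hc := h.ne
  refine ⟨⟨ClassGroup.mulEquiv (BT1_iso hl h), ?_⟩, ?_⟩
  · intro q q' hx hy
    refine BT1_cl σ (BT1_iso hl h) q q' fun z => ?_
    have key : (ev q').comp (BT1_hom hl h) = (σ : K →+* K').comp (ev q) := by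
      apply CR.hom_ext
      · intro k
        rw [RingHom.comp_apply, BT1_hom_C, ev_C, RingHom.comp_apply, ev_C]
        rfl
      · rw [RingHom.comp_apply, BT1_hom_x, map_mul, map_sub, ev_C, ev_C, ev_x, RingHom.comp_apply, ev_x, hx]
        change c⁻¹ * (c * σ q.1.1 + e - e) = σ q.1.1
        rw [add_sub_cancel_right, inv_mul_cancel_left₀ hc]
      · rw [RingHom.comp_apply, BT1_hom_y, map_mul, ev_C, ev_y, RingHom.comp_apply, ev_y, hy]
        change d⁻¹ * (d * σ q.1.2) = σ q.1.2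
        rw [inv_mul_cancel_left₀ hd]
    exact RingHom.congr_fun key z
  · intro q
    refine ⟨⟨(c * σ q.1.1 + e, d * σ q.1.2), ?_, ?_⟩, rfl, rfl⟩
    · change (d * σ q.1.2) ^ l = ∏ j, (c * σ q.1.1 + e - a' j) ^ μ j
      have h2 := BT1_poly (B := K') h (c * σ q.1.1 + e)
      simp only [Algebra.algebraMap_self, RingHom.id_apply, add_sub_cancel_right] at h2
      simp only [inv_mul_cancel_left₀ hc] at h2
      have h3 : σ q.1.2 ^ l = ∏ j, (σ q.1.1 - σ (a j)) ^ μ j := by
        rw [← map_pow, q.2.1, map_prod]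
        exact Finset.prod_congr rfl fun j _ => by rw [map_pow, map_sub]
      rw [mul_pow, h3, h2, h.rel, ← mul_assoc, ← mul_pow, mul_inv_cancel₀ hc, one_pow, one_mul]
    · exact (IsUnit.mk0 _ hd).mul (q.2.2.map σ)

end

end Pool.Agent.AQ
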