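import Pool.Agent.helper11.AQ.BT1

/-!
# Project aq (MP_3703a7_ag), row BT3: the automorphisms in the notation of `IsT`
-/

set_option autoImplicit false

namespace Pool.Agent.AQ

open Polynomial Pool.Agent.HC Pool.Agent.HC.SJ Pool.Agent.SJ Pool.Agent.GJ Pool.Agent.TK Pool.Agent.CM
open Pool.Agent.TQJ Pool.Agent.TQG
open Pool.Agent.FJ (VT Om chiO rf rs IsFrobO)
open Pool.Agent.TD (zK DvK bC mK IsPhiK Stab)
open scoped TensorProduct NumberField

noncomputable section

theorem BT3 (h1 : KA1_stmt) (h7 : KA7_stmt) : BT3_stmt := by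
  intro K _ _ l n _ _ μ a _ _ σ
  refine ⟨?_, ?_⟩
  · intro π h q q' hx hy
    refine BT1_cl σ (autP (l := l) σ h) q q' fun z => ?_
    have key : (ev q').comp (mapP (b := a) (σ : K →+* K) ⟨h.pt, h.wt⟩) = (σ : K →+* K).comp (ev q) := by
      apply CR.hom_ext
      · intro k
        rw [RingHom.comp_apply, mapP_C, ev_C, RingHom.comp_apply, ev_C]
      · rw [RingHom.comp_apply, mapP_x, ev_x, RingHom.comp_apply, ev_x, hx, one_mul, add_zero]
        rfl
      · rw [RingHom.comp_apply, mapP_y, ev_y, RingHom.comp_apply, ev_y, hy, one_mul]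
        rfl
    exact RingHom.congr_fun key z
  · intro h s q q' hx hy
    refine (h7 K l n μ a).1 σ h s q q' ?_ ?_
    · rw [hx, one_mul, add_zero]
    · rw [hy, ← mul_assoc, ← Units.val_mul]
      simp

end

end Pool.Agent.AQ
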