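import Pool.Agent.helper85.AQ.SpecL

/-!
# Project aq (MP_3703a7_ag), row LMU: multiplicities from the determinant
-/

set_option autoImplicit false

namespace Pool.Agent.AQ

open Pool.Agent.GJ
open scoped TensorProduct

noncomputable section

open Polynomial in
theorem LMU : LMU_stmt := by
  classical
  intro Ω V _ _ _ _ n w hn α hα g hprod hdet hm
  set P : Polynomial Ω := ∏ t, (X - C (α t)) with hPdef
  have hP : aeval g P = 0 := by
    rw [hPdef, Fin.prod_univ_def, map_list_prod, List.map_map]
    refine Eq.trans (congrArg List.prod (List.map_congr_left fun t _ => ?_)) hprod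
    simp only [Function.comp_apply, map_sub, aeval_X, aeval_C]
    rfl
  have hL : ∀ t, P ∣ (X - C (α t)) * Lagrange.basis Finset.univ α t := by
    intro t
    rw [Lagrange.basis]
    simp only [Lagrange.basisDivisor, Finset.prod_mul_distrib]
    refine ⟨∏ j ∈ Finset.univ.erase t, C (α t - α j)⁻¹, ?_⟩
    rw [hPdef, ← Finset.mul_prod_erase Finset.univ _ (Finset.mem_univ t)]
    ring
  have hmem : ∀ t (v : V), aeval g (Lagrange.basis Finset.univ α t) v ∈ Module.End.eigenspace g (α t) := by
    intro t v
    rw [Module.End.mem_eigenspace_iff]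
    obtain ⟨R, hR⟩ := hL t
    have h1 : aeval g ((X - C (α t)) * Lagrange.basis Finset.univ α t) = 0 := by
      rw [hR, map_mul, hP, zero_mul]
    rw [map_mul, map_sub, aeval_X, aeval_C] at h1
    have h2 := LinearMap.congr_fun h1 v
    rw [Module.End.mul_apply, LinearMap.sub_apply, Module.algebraMap_end_apply, LinearMap.zero_apply, sub_eq_zero] at h2
    exact h2
  rcases Nat.eq_zero_or_pos n with h0 | hpos
  · subst h0
    refine ⟨Module.finBasisOfFinrankEq Ω V hn, ?_⟩
    exact (Module.finBasisOfFinrankEq Ω V hn).ext fun t => t.elim0
  · have hne : Nonempty (Fin n) := ⟨⟨0, hpos⟩⟩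
    have hsup : ⨆ t, Module.End.eigenspace g (α t) = ⊤ := by
      rw [eq_top_iff]
      intro v _
      have h1 : v = ∑ t, aeval g (Lagrange.basis Finset.univ α t) v := by
        have h2 := Lagrange.sum_basis (s := Finset.univ) (v := α) hα.injOn Finset.univ_nonempty
        have h3 := congrArg (fun q => aeval g q v) h2
        simp only [map_sum, map_one, Module.End.one_apply, LinearMap.sum_apply] at h3
        exact h3.symm
      rw [h1]
      exact Submodule.sum_mem _ fun t _ => Submodule.mem_iSup_of_mem t (hmem t v)
    have hind : iSupIndep fun t => Module.End.eigenspace g (α t) :=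
      (Module.End.eigenspaces_iSupIndep g).comp hα
    have hI : DirectSum.IsInternal fun t => Module.End.eigenspace g (α t) :=
      DirectSum.isInternal_submodule_of_iSupIndep_of_iSup_eq_top hind hsup
    set m : Fin n → ℕ := fun t => Module.finrank Ω (Module.End.eigenspace g (α t)) with hmdef
    let b : ∀ t, Module.Basis (Fin (m t)) Ω (Module.End.eigenspace g (α t)) := fun t => Module.finBasis Ω _
    let B := hI.collectedBasis b
    have hBm : ∀ x : (t : Fin n) × Fin (m t), g (B x) = α x.1 • B x := by
      intro x
      have h1 : B x ∈ Module.End.eigenspace g (α x.1) := hI.collectedBasis_mem b x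
      exact Module.End.mem_eigenspace_iff.1 h1
    have hsum : ∑ t, m t = n := by
      have h1 := Module.finrank_eq_card_basis B
      rw [hn, Fintype.card_sigma] at h1
      simp only [Fintype.card_fin] at h1
      exact h1.symm
    have hd : LinearMap.det g = ∏ t, α t ^ m t := by
      rw [← LinearMap.det_toMatrix B]
      have h1 : LinearMap.toMatrix B B g = Matrix.diagonal fun x => α x.1 := by
        ext i j
        rw [LinearMap.toMatrix_apply, hBm, map_smul, Module.Basis.repr_self, Finsupp.smul_apply, smul_eq_mul,
          Finsupp.single_apply, Matrix.diagonal_apply]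
        by_cases hij : i = j
        · rw [if_pos hij.symm, if_pos hij, hij, mul_one]
        · rw [if_neg (fun h => hij h.symm), if_neg hij, mul_zero]
      rw [h1, Matrix.det_diagonal, Fintype.prod_sigma]
      refine Finset.prod_congr rfl fun t _ => ?_
      change ∏ _y : Fin (m t), α t = α t ^ m t
      rw [Finset.prod_const, Finset.card_univ, Fintype.card_fin]
    have hm1 : ∀ t, m t = 1 := by
      refine hm m hsum ?_
      rw [← hdet, hd, ← Finset.prod_pow]
      refine Finset.prod_congr rfl fun t _ => ?_
      rw [← pow_mul, mul_comm]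
    have hex : ∀ t, ∃ v : V, v ≠ 0 ∧ g v = α t • v := by
      intro t
      have h1 : Module.End.eigenspace g (α t) ≠ ⊥ := by
        intro h2
        have h3 : Module.finrank Ω (Module.End.eigenspace g (α t)) = 1 := hm1 t
        have h4 : Module.finrank Ω (Module.End.eigenspace g (α t)) = 0 := by
          have h5 := finrank_bot Ω V
          rw [← h2] at h5
          exact h5
        omega
      obtain ⟨v, hv, hv0⟩ := Submodule.exists_mem_ne_zero_of_ne_bot h1
      exact ⟨v, hv0, Module.End.mem_eigenspace_iff.1 hv⟩
    choose v hv0 hv using hex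
    have hli : LinearIndependent Ω v :=
      Module.End.eigenvectors_linearIndependent' g α hα v fun t =>
        ⟨Module.End.mem_eigenspace_iff.2 (hv t), hv0 t⟩
    let bv := basisOfLinearIndependentOfCardEqFinrank hli (by rw [Fintype.card_fin, hn])
    refine ⟨bv, bv.ext fun t => ?_⟩
    rw [dg_apply]
    have h1 : bv t = v t := by
      rw [coe_basisOfLinearIndependentOfCardEqFinrank]
    rw [h1, hv]

end

end Pool.Agent.AQ
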