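import Pool.Agent.helper85.AQ.SpecL
import Pool.Agent.helper99.GJ.L9

/-!
# Project aq (MP_3703a7_ag), row LND: nondegeneracy after extension of the scalars
-/

set_option autoImplicit false

namespace Pool.Agent.AQ

open Pool.Agent.GJ
open scoped TensorProduct

noncomputable section

/-- the extension of a linear form -/
def LND_ext {k Ω V : Type} [Field k] [Field Ω] [Algebra k Ω] [AddCommGroup V] [Module k V] (g : V →ₗ[k] k) :
    Ω ⊗[k] V →ₗ[Ω] Ω :=
  (TensorProduct.AlgebraTensorModule.rid k Ω Ω).toLinearMap ∘ₗ g.baseChange Ω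

theorem LND_ext_apply {k Ω V : Type} [Field k] [Field Ω] [Algebra k Ω] [AddCommGroup V] [Module k V]
    (g : V →ₗ[k] k) (v : V) : LND_ext (Ω := Ω) g ((1 : Ω) ⊗ₜ[k] v) = algebraMap k Ω (g v) := by
  rw [LND_ext, LinearMap.comp_apply, LinearMap.baseChange_tmul, LinearEquiv.coe_coe,
    TensorProduct.AlgebraTensorModule.rid_tmul, Algebra.algebraMap_eq_smul_one]

theorem LND : LND_stmt := by
  intro k Ω V _ _ _ _ _ _ b hb θ hθ hND f hf
  -- the values of `f`
  let F : V →ₗ[k] Ω := (f.restrictScalars k) ∘ₗ (TensorProduct.mk k Ω V 1)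
  have hF : ∀ v, F v = f ((1 : Ω) ⊗ₜ[k] v) := fun _ => rfl
  have key : ∀ (φ : Ω →ₗ[k] k) (g : V →ₗ[k] k), pr2 (φ ∘ₗ F) g θ = φ (pr2 f (LND_ext g) (b θ)) := by
    intro φ g
    refine L9_ind (p := fun θ => pr2 (φ ∘ₗ F) g θ = φ (pr2 f (LND_ext g) (b θ))) ?_ ?_ θ hθ
    · intro x y
      change pr2 (φ ∘ₗ F) g (ExteriorAlgebra.ι k x * ExteriorAlgebra.ι k y) =
        φ (pr2 f (LND_ext g) (b (ExteriorAlgebra.ι k x * ExteriorAlgebra.ι k y)))
      have hFx : (φ ∘ₗ F) x = φ (f ((1 : Ω) ⊗ₜ[k] x)) := rfl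
      have hFy : (φ ∘ₗ F) y = φ (f ((1 : Ω) ⊗ₜ[k] y)) := rfl
      rw [hb, L9_pr2, L9_pr2, LND_ext_apply, LND_ext_apply, map_sub, hFx, hFy,
        mul_comm (f _) (algebraMap k Ω (g y)), ← Algebra.smul_def, ← Algebra.smul_def, map_smul, map_smul,
        smul_eq_mul, smul_eq_mul, mul_comm (φ _) (g y)]
    · intro c d hc hd
      change pr2 (φ ∘ₗ F) g (c + d) = φ (pr2 f (LND_ext g) (b (c + d)))
      have hc' : pr2 (φ ∘ₗ F) g c = φ (pr2 f (LND_ext g) (b c)) := hc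
      have hd' : pr2 (φ ∘ₗ F) g d = φ (pr2 f (LND_ext g) (b d)) := hd
      rw [map_add, map_add, map_add, map_add, hc', hd']
  have hzero : ∀ φ : Ω →ₗ[k] k, φ ∘ₗ F = 0 := by
    intro φ
    refine hND _ fun g => ?_
    rw [key, hf, map_zero]
  have hF0 : ∀ v, F v = 0 := by
    intro v
    rw [← Module.forall_dual_apply_eq_zero_iff k (F v)]
    intro φ
    exact LinearMap.congr_fun (hzero φ) v
  ext v
  exact hF0 v

end

end Pool.Agent.AQ
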